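import Pool.Agent.Helper425.PA.Order

set_option autoImplicit false

universe u

namespace Pool.Agent.Results.MP_62ad46_lc.Definable

open Cardinal Pool.Agent.Helper425.PA

/-- Let `M` be a countably saturated model of Peano arithmetic such that `M` has at most continuum
many elements or, more generally, every infinite `M`-finite set has as many elements as `M`. Then
the Turing degree of the standard cut is definable without parameters in the partial order of the
Turing degrees of all subsets of `M`. -/
theorem result (M : Type u) [CommSemiring M] [LinearOrder M] [PeanoModel M]
    (hsat : CountablySaturated M)
    (hcard : #M ≤ 𝔠 ∨ ∀ k : M, (El k).Infinite → #(El k) = #M) :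
    letI : FirstOrder.Language.order.Structure (Degree M) :=
      FirstOrder.Language.orderStructure (Degree M)
    (∅ : Set (Degree M)).Definable₁ FirstOrder.Language.order {deg (omega M)} := by
  refine definable_omega hsat ?_
  intro k hk
  rcases hcard with h | h
  · exact h.trans (continuum_le_of_infinite hsat k hk)
  · exact (h k hk).ge

end Pool.Agent.Results.MP_62ad46_lc.Definable
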